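import Pool.Agent.Helper14.BSC.Stmts

set_option autoImplicit false

namespace Pool.Agent.Helper14.BSC

section

variable {k Ω : Type} [Field k] [Field Ω] [Algebra k Ω] {p : ℕ} [Fact p.Prime]

theorem asy3_add (Lc : Loc k Ω p) {x y : Acl k Ω} (hx : nm Lc x ≤ 1) (hy : nm Lc y ≤ 1) :
    nm Lc (x + y) ≤ 1 := by
  have h := PadicComplex.isNonarchimedean p (Lc.ι x) (Lc.ι y)
  unfold nm at *
  rw [map_add]
  exact h.trans (max_le hx hy)

theorem asy3_mul (Lc : Loc k Ω p) (x y : Acl k Ω) : nm Lc (x * y) = nm Lc x * nm Lc y := by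
  unfold nm
  rw [map_mul, norm_mul]

theorem asy3_mul_le (Lc : Loc k Ω p) {x y : Acl k Ω} (hx : nm Lc x ≤ 1) (hy : nm Lc y ≤ 1) :
    nm Lc (x * y) ≤ 1 := by
  rw [asy3_mul]
  exact mul_le_one₀ hx (norm_nonneg _) hy

theorem asy3_neg (Lc : Loc k Ω p) (x : Acl k Ω) : nm Lc (-x) = nm Lc x := by
  unfold nm
  rw [map_neg, norm_neg]

theorem asy3_one (Lc : Loc k Ω p) : nm Lc 1 = 1 := by
  unfold nm
  rw [map_one, norm_one]

theorem asy3_zero (Lc : Loc k Ω p) : nm Lc 0 = 0 := by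
  unfold nm
  rw [map_zero, norm_zero]

theorem asy3_pow (Lc : Loc k Ω p) (x : Acl k Ω) (n : ℕ) : nm Lc (x ^ n) = nm Lc x ^ n := by
  unfold nm
  rw [map_pow, norm_pow]

end

theorem st_ASY3 (hWDK : ST_WDK) (hRESK : ST_RESK) : ST_ASY3 := by
  intro k Ω _ _ _ p _ hp3 Lc
  obtain ⟨κ, hκ, hfin, hchar, ρ, h1, hsur, hker, hhom⟩ := hRESK k Ω p Lc
  have hadd : ∀ x y : FF Lc.S₁, nm Lc x ≤ 1 → nm Lc y ≤ 1 → ρ (x + y) = ρ x + ρ y :=
    fun x y hx hy => (hhom x y hx hy).1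
  have hmul : ∀ x y : FF Lc.S₁, nm Lc x ≤ 1 → nm Lc y ≤ 1 → ρ (x * y) = ρ x * ρ y :=
    fun x y hx hy => (hhom x y hx hy).2
  have h0 : ρ 0 = 0 := by
    have : nm Lc ((0 : FF Lc.S₁) : Acl k Ω) < 1 := by
      rw [ZeroMemClass.coe_zero, asy3_zero]; exact zero_lt_one
    exact (hker 0 this.le).2 this
  have hneg : ∀ x : FF Lc.S₁, nm Lc x ≤ 1 → ρ (-x) = -ρ x := by
    intro x hx
    have h := hadd x (-x) hx (by
      rw [NegMemClass.coe_neg, asy3_neg]; exact hx)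
    rw [add_neg_cancel, h0] at h
    exact (neg_eq_of_add_eq_zero_right h.symm).symm
  have hmle : ∀ x y : FF Lc.S₁, nm Lc x ≤ 1 → nm Lc y ≤ 1 → nm Lc ((x * y : FF Lc.S₁) : Acl k Ω) ≤ 1 :=
    fun x y hx hy => asy3_mul_le Lc hx hy
  have hale : ∀ x y : FF Lc.S₁, nm Lc x ≤ 1 → nm Lc y ≤ 1 → nm Lc ((x + y : FF Lc.S₁) : Acl k Ω) ≤ 1 :=
    fun x y hx hy => asy3_add Lc hx hy
  have hple : ∀ (x : FF Lc.S₁) (n : ℕ), nm Lc x ≤ 1 → nm Lc ((x ^ n : FF Lc.S₁) : Acl k Ω) ≤ 1 := by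
    intro x n hx
    rw [SubmonoidClass.coe_pow, asy3_pow]
    exact pow_le_one₀ (norm_nonneg _) hx
  have hpow : ∀ (n : ℕ) (x : FF Lc.S₁), nm Lc x ≤ 1 → ρ (x ^ n) = ρ x ^ n := by
    intro n x hx
    induction n with
    | zero => rw [pow_zero, pow_zero, h1]
    | succ n ih => rw [pow_succ, hmul _ _ (hple x n hx) hx, ih, pow_succ]
  -- a primitive cube root of unity in κ
  have hw3 : ∃ w : κ, IsPrimitiveRoot w 3 := by
    obtain ⟨w, hw, hwp⟩ := Lc.W3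
    have hwn : nm Lc w ≤ 1 := by
      have h := asy3_pow Lc w 3
      rw [hwp.pow_eq_one, asy3_one] at h
      by_contra hc
      rw [not_le] at hc
      have := one_lt_pow₀ hc (n := 3) (by norm_num)
      linarith
    set w' : FF Lc.S₁ := ⟨w, hw⟩ with hw'
    have hwn' : nm Lc w' ≤ 1 := hwn
    have hwe : w' ^ 3 = 1 := Subtype.ext hwp.pow_eq_one
    have e1 : ρ w' ^ 3 = 1 := by rw [← hpow 3 w' hwn', hwe, h1]
    have hne : ρ w' ≠ 1 := by
      intro hρ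
      have hw1 : w' ≠ 1 := by
        intro h
        exact hwp.ne_one (by norm_num) (congrArg Subtype.val h)
      have e2 : (w' - 1) * (1 + w' + w' ^ 2) = 0 := by
        have : (w' - 1) * (1 + w' + w' ^ 2) = w' ^ 3 - 1 := by ring
        rw [this, hwe, sub_self]
      have e3 : 1 + w' + w' ^ 2 = 0 := by
        rcases mul_eq_zero.1 e2 with h | h
        · exact absurd (sub_eq_zero.1 h) hw1
        · exact h
      have h1n : nm Lc ((1 : FF Lc.S₁) : Acl k Ω) ≤ 1 := by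
        rw [OneMemClass.coe_one, asy3_one]
      have e4 : ρ (1 + w' + w' ^ 2) = 1 + 1 + 1 ^ 2 := by
        rw [hadd _ _ (hale _ _ h1n hwn') (hple _ 2 hwn'), hadd _ _ h1n hwn', hpow 2 _ hwn', h1, hρ]
      rw [e3, h0] at e4
      have e5 : ((3 : ℕ) : κ) = 0 := by
        rw [e4]; push_cast; ring
      have := (CharP.cast_eq_zero_iff κ p 3).1 e5
      exact hp3 ((Nat.prime_dvd_prime_iff_eq Fact.out Nat.prime_three).1 this)
    refine ⟨ρ w', ?_⟩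
    have := orderOf_eq_prime (p := 3) (hp := ⟨Nat.prime_three⟩) e1 hne
    rw [← this]
    exact IsPrimitiveRoot.orderOf _
  obtain ⟨e₀, he₀, y₀, hy₀, hey⟩ := hWDK κ hw3
  obtain ⟨e, hen, he⟩ := hsur e₀
  obtain ⟨y, hyn, hy⟩ := hsur y₀
  have he0 : e₀ ≠ 0 := by
    rintro rfl
    exact he₀ ⟨0, by norm_num⟩
  have h1n : nm Lc ((1 : FF Lc.S₁) : Acl k Ω) ≤ 1 := by
    rw [OneMemClass.coe_one, asy3_one]
  have hunit : ∀ x : FF Lc.S₁, nm Lc x ≤ 1 → ρ x ≠ 0 → nm Lc x = 1 := by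
    intro x hx hρ
    by_contra hne
    exact hρ ((hker x hx).2 (lt_of_le_of_ne hx hne))
  refine ⟨e, e.2, hunit e hen (by rw [he]; exact he0), ?_, ?_, ?_⟩
  · have := hunit (1 + e) (hale _ _ h1n hen) (by
      rw [hadd _ _ h1n hen, h1, he, hey]
      exact mul_ne_zero (pow_ne_zero _ he0) (pow_ne_zero _ hy₀))
    exact this
  · intro z hz hzn
    by_contra hc
    rw [not_le] at hc
    set z' : FF Lc.S₁ := ⟨z, hz⟩ with hz'
    have hzn' : nm Lc z' ≤ 1 := hzn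
    have hnen : nm Lc ((-e : FF Lc.S₁) : Acl k Ω) ≤ 1 := by
      rw [NegMemClass.coe_neg, asy3_neg]; exact hen
    have e1 : ρ (z' ^ 3 + -e) = ρ z' ^ 3 + - e₀ := by
      rw [hadd _ _ (hple _ 3 hzn') hnen, hpow 3 _ hzn', hneg _ hen, he]
    have e2 : ρ (z' ^ 3 + -e) = 0 := by
      refine (hker _ (hale _ _ (hple _ 3 hzn') hnen)).2 ?_
      rw [← sub_eq_add_neg]
      exact hc
    rw [e2] at e1
    exact he₀ ⟨ρ z', by linear_combination e1⟩
  · refine ⟨y, y.2, ?_⟩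
    have hm : nm Lc ((-(e ^ 2 * y ^ 3) : FF Lc.S₁) : Acl k Ω) ≤ 1 := by
      rw [NegMemClass.coe_neg, asy3_neg]
      exact hmle _ _ (hple _ 2 hen) (hple _ 3 hyn)
    have hs : nm Lc (((1 + e) + -(e ^ 2 * y ^ 3) : FF Lc.S₁) : Acl k Ω) ≤ 1 :=
      hale _ _ (hale _ _ h1n hen) hm
    have e2 : ρ ((1 + e) + -(e ^ 2 * y ^ 3)) = 0 := by
      rw [hadd _ _ (hale _ _ h1n hen) hm, hadd _ _ h1n hen,
        hneg _ (hmle _ _ (hple _ 2 hen) (hple _ 3 hyn)),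
        hmul _ _ (hple _ 2 hen) (hple _ 3 hyn), hpow 2 _ hen, hpow 3 _ hyn, h1, he, hy, hey]
      ring
    have := (hker _ hs).1 e2
    rw [← sub_eq_add_neg] at this
    exact this

end Pool.Agent.Helper14.BSC
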