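import Pool.Agent.Helper14.BSC.Stmts

set_option autoImplicit false

namespace Pool.Agent.Helper14.BSC

theorem cnv_val {F : Type} [Field F] (W : ValuationSubring F) (x : F) :
    W.valuation x < 1 ↔ (x = 0 ∨ x⁻¹ ∉ W) := by
  by_cases hx : x = 0
  · subst hx
    simp
  · have h1 : x⁻¹ ∉ W ↔ W.valuation x < 1 := by
      rw [← W.valuation_le_one_iff, map_inv₀, not_le]
      rw [one_lt_inv₀ (by
        rw [zero_lt_iff]
        exact (W.valuation.ne_zero_iff).2 hx)]
    rw [h1]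
    simp [hx]

theorem st_CNV (hHEN : ST_HEN) (hRES : ST_RES) : ST_CNV := by
  intro k K Ω _ _ _ _ _ _ _ _ _ _ D k₁ _ _ _ O hO f
  obtain ⟨_, hk, hres, W, hW, hinv⟩ := hO
  have hmem : ∀ x : K, algebraMap K Ω x ∈ W ↔ x ∈ O := by
    intro x
    rw [← hW]
    exact Iff.rfl
  have hkW : ∀ c : k, algebraMap k Ω c ∈ W := by
    intro c
    rw [IsScalarTower.algebraMap_apply k K Ω]
    exact (hmem _).2 (hk c)
  have hresW : ∀ a : K, algebraMap K Ω a ∈ W →
      ∃ c : k, W.valuation (algebraMap K Ω a - algebraMap k Ω c) < 1 := by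
    intro a ha
    obtain ⟨c, hc⟩ := hres a ((hmem a).1 ha)
    refine ⟨c, ?_⟩
    rw [IsScalarTower.algebraMap_apply k K Ω, ← map_sub]
    rw [cnv_val] at hc ⊢
    rcases hc with hc | hc
    · left; rw [hc, map_zero]
    · right
      rw [← map_inv₀, hmem]
      exact hc
  obtain ⟨h, hh, hhW⟩ : ∃ h : LL D, (h = f ∨ h = f⁻¹) ∧ (h : Ω) ∈ W := by
    rcases W.mem_or_inv_mem (f : Ω) with h | h
    · exact ⟨f, Or.inl rfl, h⟩
    · exact ⟨f⁻¹, Or.inr rfl, h⟩
  refine ⟨h, hh, ?_⟩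
  obtain ⟨c, hc⟩ := hRES k Ω D K W hkW hinv hresW h hhW
  refine (Set.finite_singleton c).subset ?_
  intro a ha
  rw [Set.mem_ofPred_eq] at ha
  by_contra hac
  apply ha
  have hac' : c - a ≠ 0 := by
    intro h0
    exact hac (sub_eq_zero.1 h0).symm
  have hne : algebraMap k (LL D) (c - a) ≠ 0 := by
    rw [Ne, map_eq_zero]
    exact hac'
  have hneΩ : algebraMap k Ω (c - a) ≠ 0 := by
    rw [Ne, map_eq_zero]
    exact hac'
  have hv : W.valuation (((h - algebraMap k (LL D) a) / algebraMap k (LL D) (c - a) : LL D) - 1 : Ω) < 1 := by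
    have e1 : (((h - algebraMap k (LL D) a) / algebraMap k (LL D) (c - a) : LL D) - 1 : Ω)
        = ((h : Ω) - algebraMap k Ω c) * algebraMap k Ω ((c - a)⁻¹) := by
      have e2 : (((h - algebraMap k (LL D) a) / algebraMap k (LL D) (c - a) : LL D) : Ω)
          = ((h : Ω) - algebraMap k Ω a) / algebraMap k Ω (c - a) := rfl
      rw [e2, map_inv₀]
      rw [map_sub] at hneΩ ⊢
      field_simp
      ring
    rw [e1, map_mul]
    calc W.valuation ((h : Ω) - algebraMap k Ω c) * W.valuation (algebraMap k Ω ((c - a)⁻¹))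
        ≤ W.valuation ((h : Ω) - algebraMap k Ω c) * 1 := by
          apply mul_le_mul_right
          exact (W.valuation_le_one_iff _).2 (hkW _)
      _ < 1 := by rw [mul_one]; exact hc
  have hpow := hHEN k Ω D W hkW hinv _ hv
  refine ⟨Algebra.norm k₁ (c - a), ?_, ?_⟩
  · exact Algebra.norm_ne_zero_iff.2 hac'
  · intro n hn
    obtain ⟨y, hy⟩ := hpow n hn
    refine ⟨c - a, hac', y, ?_, 1, ?_⟩
    · rw [← hy]
      field_simp
    · rw [one_pow, mul_one]

end Pool.Agent.Helper14.BSC
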