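import Pool.Agent.Helper14.BSC.Stmts2

set_option autoImplicit false

namespace Pool.Agent.Helper14.BSC

theorem st_N1 (hLIM : ST_LIM) : ST_N1 := by
  intro k Ω _ _ _ _ _ D k₁ _ _ _ p _ T P x r hr hNR hx hφ
  obtain ⟨E₀, hE₀, hE₀m⟩ := T.fin
  have := hE₀
  have : ∀ i, FiniteDimensional ℚ_[p] (P i).E := fun i => (P i).finE
  have : FiniteDimensional ℚ_[p] (⨆ i, (P i).E : IntermediateField ℚ_[p] ℂ_[p]) :=
    IntermediateField.finiteDimensional_iSup_of_finite
  set E : IntermediateField ℚ_[p] ℂ_[p] := E₀ ⊔ ⨆ i, (P i).E with hE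
  have hEfin : FiniteDimensional ℚ_[p] E := IntermediateField.finiteDimensional_sup _ _
  have hjr : T.j r ≠ 0 := by
    rw [Ne, map_eq_zero]; exact hr
  have hjE : ∀ t : k₁, T.j t ∈ E := by
    intro t
    have h := T.res ⟨0, T.pos⟩ t
    rw [← h]
    exact (le_sup_left : E₀ ≤ E) (hE₀m _ _)
  have hPE : ∀ i, (P i).E ≤ E := fun i =>
    (le_iSup (fun i => (P i).E) i).trans (le_sup_right : (⨆ i, (P i).E) ≤ E)
  have key : (∏ i, (P i).φ ⟨x, hx i⟩) / T.j r = 1 := by
    refine hLIM p E hEfin _ (div_ne_zero (Finset.prod_ne_zero_iff.2 fun i _ => hφ i) hjr) ?_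
    intro n hn δ hδ
    have hcont : Continuous fun y : Fin T.n → ℂ_[p] => (∏ i, y i) / T.j r := by
      fun_prop
    obtain ⟨δ', hδ', hδ''⟩ := Metric.continuous_iff.1 hcont (fun i => (P i).φ ⟨x, hx i⟩) δ hδ
    obtain ⟨c, hc, g, hg, t, ht⟩ := hNR n hn
    choose w hw y hy hyd hcy using fun i => (P i).kum ⟨x, hx i⟩ (hφ i) n hn δ' hδ' c g hg
    have hσc : ∀ i, T.σ i c ≠ 0 := fun i => by
      rw [Ne, map_eq_zero]; exact hc
    have hwne : ∀ i, w i ≠ 0 := by
      intro i h0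
      apply hσc i
      rw [hcy i, h0, zero_pow hn.ne', mul_zero]
    have hprod : (∏ i, y i) * (∏ i, w i) ^ n = T.j r * T.j t ^ n := by
      have h1 := T.norm c
      rw [ht, map_mul, map_pow] at h1
      rw [← h1, ← Finset.prod_pow, ← Finset.prod_mul_distrib]
      exact Finset.prod_congr rfl fun i _ => (hcy i).symm
    have hWne : (∏ i, w i) ≠ 0 := Finset.prod_ne_zero_iff.2 fun i _ => hwne i
    refine ⟨T.j t / ∏ i, w i, ?_, ?_⟩
    · exact div_mem (hjE t) (prod_mem fun i _ => hPE i (hw i))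
    · have h2 : (T.j t / ∏ i, w i) ^ n = (∏ i, y i) / T.j r := by
        rw [div_pow, div_eq_div_iff (pow_ne_zero _ hWne) hjr, hprod]
        ring
      rw [h2, ← dist_eq_norm]
      apply hδ''
      rw [dist_pi_lt_iff hδ']
      intro i
      rw [dist_eq_norm]
      exact hyd i
  rw [div_eq_one_iff_eq hjr] at key
  exact key

end Pool.Agent.Helper14.BSC
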